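import Pool.Agent.Q317.LD.Kum

/-!
# Fixed points on roots
-/

set_option autoImplicit false

namespace Pool.Agent.Q317.LD

open scoped Classical
open IntermediateField Polynomial Pool.Agent.Q317.ST Pool.Agent.Q317.ST.Perm

attribute [-instance] DivisionRing.toRatAlgebra

variable {Ω : Type} [Field Ω] [Algebra ℚ Ω]

theorem ex_inj {l : ℕ} [NeZero l] {z : Ω} (hz : IsPrimitiveRoot z l) {i j : ZMod l}
    (h : ex z i = ex z j) : i = j := by
  unfold ex at h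
  exact ZMod.val_injective l (hz.pow_inj (ZMod.val_lt i) (ZMod.val_lt j) h)

theorem ex_mul {l : ℕ} [NeZero l] {z : Ω} (hz : z ^ l = 1) (m i : ZMod l) :
    (ex z m) ^ i.val = ex z (m * i) := by
  unfold ex
  rw [← pow_mul]
  apply pow_mod' hz
  push_cast
  rw [ZMod.natCast_zmod_val, ZMod.natCast_zmod_val, ZMod.natCast_zmod_val]

theorem map_ex {l : ℕ} [NeZero l] {z : Ω} (hz : z ^ l = 1) {σ : Ω ≃ₐ[ℚ] Ω} {m : ZMod l}
    (hm : σ z = ex z m) (i : ZMod l) : σ (ex z i) = ex z (m * i) := by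
  rw [← ex_mul hz, ← hm]
  unfold ex
  rw [map_pow]

theorem ex_pow {l : ℕ} [NeZero l] {z : Ω} (hz : z ^ l = 1) (i : ZMod l) : (ex z i) ^ l = 1 := by
  unfold ex
  rw [← pow_mul, mul_comm i.val l, pow_mul, hz, one_pow]

/-- the number of fixed `l`-th roots of `c` -/
noncomputable def nr (σ : Ω ≃ₐ[ℚ] Ω) (l : ℕ) (c : Ω) : ℕ :=
  Nat.card {y : Ω // y ^ l = c ∧ σ y = y}

theorem exists_m {l : ℕ} [hl : Fact l.Prime] {z : Ω} (hz : IsPrimitiveRoot z l)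
    (σ : Ω ≃ₐ[ℚ] Ω) : ∃ m : ZMod l, σ z = ex z m := by
  obtain ⟨m, hm⟩ := exists_ex hz (x := 1) (y := σ z) one_ne_zero (one_pow l)
    (by rw [← map_pow, hz.pow_eq_one, map_one])
  exact ⟨m, by rw [hm, mul_one]⟩

theorem nr_one {l : ℕ} [hl : Fact l.Prime] {z : Ω} (hz : IsPrimitiveRoot z l) {σ : Ω ≃ₐ[ℚ] Ω}
    (hσ : σ z ≠ z) {c γ : Ω} (hc : c ≠ 0) (hσc : σ c = c) (hγ : γ ^ l = c) : nr σ l c = 1 := by
  have hz1 := hz.pow_eq_one
  obtain ⟨m, hm⟩ := exists_m hz σ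
  have hm1 : 1 - m ≠ 0 := by
    intro h
    apply hσ
    rw [hm, ← sub_eq_zero.1 h]
    unfold ex
    rw [ZMod.val_one'' hl.out.ne_one, pow_one]
  obtain ⟨u, hu⟩ := exists_ex hz hc hγ (y := σ γ) (by rw [← map_pow, hγ, hσc])
  unfold nr
  rw [Nat.card_eq_one_iff_unique]
  constructor
  · constructor
    rintro ⟨y, hy, hy'⟩ ⟨y', hy1, hy1'⟩
    obtain ⟨i, hi⟩ := exists_ex hz hc hy hy1
    have hy0 : y ≠ 0 := by
      rintro rfl
      rw [zero_pow hl.out.ne_zero] at hy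
      exact hc hy.symm
    have h1 : ex z (m * i) = ex z i := by
      have h2 := hy1'
      rw [hi, map_mul, map_ex hz1 hm, hy'] at h2
      exact mul_right_cancel₀ hy0 h2
    have h3 := ex_inj hz h1
    have h4 : (1 - m) * i = 0 := by rw [sub_mul, one_mul, h3, sub_self]
    have h5 := (mul_eq_zero.1 h4).resolve_left hm1
    apply Subtype.ext
    change y = y'
    rw [hi, h5, ex_zero, one_mul]
  · refine ⟨⟨ex z (u / (1 - m)) * γ, ?_, ?_⟩⟩
    · rw [mul_pow, hγ, ex_pow hz1, one_mul]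
    · rw [map_mul, map_ex hz1 hm, hu, ← mul_assoc, ← ex_add hz1]
      congr 2
      field_simp
      ring

theorem nr_fixed {l : ℕ} [hl : Fact l.Prime] {z : Ω} (hz : IsPrimitiveRoot z l) {σ : Ω ≃ₐ[ℚ] Ω}
    (hσ : σ z = z) {c γ : Ω} (hc : c ≠ 0) (hγ : γ ^ l = c) (h : σ γ = γ) : nr σ l c = l := by
  have hz1 := hz.pow_eq_one
  have hγ0 : γ ≠ 0 := by
    rintro rfl
    rw [zero_pow hl.out.ne_zero] at hγ
    exact hc hγ.symm
  have hex : ∀ i : ZMod l, σ (ex z i) = ex z i := fun i => by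
    unfold ex
    rw [map_pow, hσ]
  unfold nr
  have e : Nat.card (ZMod l) = Nat.card {y : Ω // y ^ l = c ∧ σ y = y} := by
    refine Nat.card_congr (Equiv.ofBijective (fun i => ⟨ex z i * γ, ?_, ?_⟩) ⟨?_, ?_⟩)
    · rw [mul_pow, hγ, ex_pow hz1, one_mul]
    · rw [map_mul, hex, h]
    · intro i j hij
      have h1 : ex z i * γ = ex z j * γ := congrArg Subtype.val hij
      exact ex_inj hz (mul_right_cancel₀ hγ0 h1)
    · rintro ⟨y, hy, hy'⟩
      obtain ⟨i, hi⟩ := exists_ex hz hc hγ hy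
      exact ⟨i, Subtype.ext hi.symm⟩
  rw [← e, Nat.card_eq_fintype_card, ZMod.card]

theorem nr_zero {l : ℕ} [hl : Fact l.Prime] {z : Ω} (hz : IsPrimitiveRoot z l) {σ : Ω ≃ₐ[ℚ] Ω}
    (hσ : σ z = z) {c γ : Ω} (hc : c ≠ 0) (hγ : γ ^ l = c) (h : σ γ ≠ γ) : nr σ l c = 0 := by
  have hex : ∀ i : ZMod l, σ (ex z i) = ex z i := fun i => by
    unfold ex
    rw [map_pow, hσ]
  unfold nr
  have : IsEmpty {y : Ω // y ^ l = c ∧ σ y = y} := by
    refine ⟨?_⟩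
    rintro ⟨y, hy, hy'⟩
    obtain ⟨i, hi⟩ := exists_ex hz hc hγ hy
    rw [hi, map_mul, hex] at hy'
    have h0 : ex z i ≠ 0 := by
      unfold ex
      exact pow_ne_zero _ (hz.ne_zero hl.out.ne_zero)
    exact h (mul_left_cancel₀ h0 hy')
  exact Nat.card_of_isEmpty

/-- the conjugates of `z` over `k` -/
def Oz (k : IntermediateField ℚ Ω) (z : Ω) : Set Ω := {w | ∃ s ∈ GG k, w = s z}

/-- the number of fixed conjugates of `z` over `k` -/
noncomputable def nz (k : IntermediateField ℚ Ω) (σ : Ω ≃ₐ[ℚ] Ω) (z : Ω) : ℕ :=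
  Nat.card {w : Ω // w ∈ Oz k z ∧ σ w = w}

theorem nz_fixed {l : ℕ} [hl : Fact l.Prime] {k : IntermediateField ℚ Ω} {z : Ω}
    (hz : IsPrimitiveRoot z l) {σ : Ω ≃ₐ[ℚ] Ω} (hσ : σ z = z) :
    nz k σ z = Nat.card (Oz k z) := by
  unfold nz
  refine Nat.card_congr (Equiv.subtypeEquivRight fun w => ?_)
  constructor
  · exact fun h => h.1
  · rintro ⟨s, hs, rfl⟩
    refine ⟨⟨s, hs, rfl⟩, ?_⟩
    obtain ⟨m, hm⟩ := exists_m hz s
    rw [hm]
    unfold ex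
    rw [map_pow, hσ]

theorem nz_zero {l : ℕ} [hl : Fact l.Prime] {k : IntermediateField ℚ Ω} {z : Ω}
    (hz : IsPrimitiveRoot z l) {σ : Ω ≃ₐ[ℚ] Ω} (hσ : σ z ≠ z) : nz k σ z = 0 := by
  have hz1 := hz.pow_eq_one
  unfold nz
  have : IsEmpty {w : Ω // w ∈ Oz k z ∧ σ w = w} := by
    refine ⟨?_⟩
    rintro ⟨w, ⟨s, hs, rfl⟩, hw⟩
    obtain ⟨i, hi⟩ := exists_m hz s
    obtain ⟨m, hm⟩ := exists_m hz σ
    rw [hi, map_ex hz1 hm] at hw
    have h1 := ex_inj hz hw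
    have h4 : (m - 1) * i = 0 := by rw [sub_mul, one_mul, h1, sub_self]
    rcases mul_eq_zero.1 h4 with h | h
    · apply hσ
      rw [hm, sub_eq_zero.1 h]
      unfold ex
      rw [ZMod.val_one'' hl.out.ne_one, pow_one]
    · rw [h, ex_zero] at hi
      have h5 : z = 1 := s.injective (by rw [hi, map_one])
      exact hz.ne_one hl.out.one_lt h5
  exact Nat.card_of_isEmpty

theorem card_Oz {l : ℕ} [hl : Fact l.Prime] {k : IntermediateField ℚ Ω} {z : Ω}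
    (hz : IsPrimitiveRoot z l) : ∃ e : ℕ, e * Nat.card (Oz k z) = l - 1 := by
  let χ : GG k →* (ZMod l)ˣ := (hz.autToPow ℚ).comp (GG k).subtype
  have hχ : ∀ s : GG k, (s : Ω ≃ₐ[ℚ] Ω) z = ex z ((χ s : (ZMod l)ˣ) : ZMod l) := fun s =>
    (hz.autToPow_spec ℚ (s : Ω ≃ₐ[ℚ] Ω)).symm
  have e1 : Nat.card χ.range = Nat.card (Oz k z) := by
    refine Nat.card_congr (Equiv.ofBijective (fun u => ⟨ex z ((u : (ZMod l)ˣ) : ZMod l), ?_⟩)
      ⟨?_, ?_⟩)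
    · obtain ⟨s, hs⟩ := u.2
      exact ⟨s, s.2, by rw [hχ, hs]⟩
    · intro u u' h
      have h1 : ex z ((u : (ZMod l)ˣ) : ZMod l) = ex z ((u' : (ZMod l)ˣ) : ZMod l) :=
        congrArg Subtype.val h
      exact Subtype.ext (Units.ext (ex_inj hz h1))
    · rintro ⟨w, s, hs, rfl⟩
      refine ⟨⟨χ ⟨s, hs⟩, ⟨s, hs⟩, rfl⟩, Subtype.ext ?_⟩
      exact (hχ ⟨s, hs⟩).symm
  have e2 : Nat.card χ.range ∣ Nat.card (ZMod l)ˣ := Subgroup.card_subgroup_dvd_card _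
  rw [e1, Nat.card_eq_fintype_card (α := (ZMod l)ˣ), ZMod.card_units_eq_totient,
    Nat.totient_prime hl.out] at e2
  obtain ⟨e, he⟩ := e2
  exact ⟨e, by rw [he, mul_comm]⟩

end Pool.Agent.Q317.LD
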