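import Pool.Agent.Q317.LD.Main

/-!
# Fields of large degree with few embeddings
-/

set_option autoImplicit false

namespace Pool.Agent.Q317.LD

open scoped Classical
open IntermediateField Polynomial Pool.Agent.Q317.ST Pool.Agent.Q317.ST.Perm

attribute [-instance] DivisionRing.toRatAlgebra

theorem real_root {l : ℕ} (hl : l.Prime) (h2 : 2 < l) {w : ℝ} (hw : w ^ l = 1) : w = 1 := by
  have hodd : Odd l := hl.odd_of_ne_two (by omega)
  have h1 : w ^ l = 1 ^ l := by rw [hw, one_pow]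
  exact hodd.strictMono_pow.injective h1

theorem padic_root {p : ℕ} [hp : Fact p.Prime] {l : ℕ} (hl : l.Prime) (hpl : p < l) {w : ℚ_[p]}
    (hw : w ^ l = 1) : w = 1 := by
  have hn : ‖w‖ = 1 := by
    have h1 : ‖w‖ ^ l = 1 := by rw [← norm_pow, hw, norm_one]
    exact (pow_eq_one_iff_of_nonneg (norm_nonneg _) hl.ne_zero).1 h1
  let x : ℤ_[p] := ⟨w, hn.le⟩
  have hx : x ^ l = 1 := by
    apply Subtype.ext
    rw [PadicInt.coe_pow, PadicInt.coe_one]
    exact hw
  have hc : (PadicInt.toZMod x) ^ l = 1 := by rw [← map_pow, hx, map_one]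
  have hc0 : (PadicInt.toZMod x) ≠ 0 := by
    intro h
    rw [h, zero_pow hl.ne_zero] at hc
    exact zero_ne_one hc
  have hc2 : (PadicInt.toZMod x) ^ (p - 1) = 1 := ZMod.pow_card_sub_one_eq_one hc0
  have hcop : Nat.gcd l (p - 1) = 1 := by
    rcases Nat.eq_zero_or_pos (p - 1) with h | h
    · have := hp.out.two_le
      omega
    · exact (Nat.Prime.coprime_iff_not_dvd hl).2 fun hdvd => by
        have := Nat.le_of_dvd h hdvd
        omega
  have hc1 : PadicInt.toZMod x = 1 := by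
    have h1 := pow_gcd_eq_one.2 ⟨hc, hc2⟩
    rwa [hcop, pow_one] at h1
  have hgeom : (x - 1) * ∑ i ∈ Finset.range l, x ^ i = 0 := by
    rw [mul_geom_sum, hx, sub_self]
  have hx1 : x = 1 := by
    rcases mul_eq_zero.1 hgeom with h | h
    · exact sub_eq_zero.1 h
    · exfalso
      have h1 := congrArg PadicInt.toZMod h
      rw [map_sum, map_zero, Finset.sum_congr rfl fun i _ => by rw [map_pow, hc1, one_pow],
        Finset.sum_const, Finset.card_range, nsmul_eq_mul, mul_one] at h1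
      have h2 : p ∣ l := (ZMod.natCast_eq_zero_iff l p).1 h1
      rcases (Nat.dvd_prime hl).1 h2 with h | h
      · exact hp.out.ne_one h
      · omega
  exact congrArg Subtype.val hx1

variable {Ω : Type} [Field Ω] [Algebra ℚ Ω]

/-- every embedding of `k` in `E` extends to at most one embedding of `F` -/
def AtMostOne (k F : IntermediateField ℚ Ω) (E : Type) [Field E] : Prop :=
  ∀ ρ ρ' : F →+* E, (∀ x : F, (x : Ω) ∈ k → ρ x = ρ' x) → ρ = ρ'

/-- `F` is a number field containing `k`, of degree at least `N`, and every embedding of `k` in `ℝ`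
or in `ℚ_p`, `p ≤ n`, extends to at most one embedding of `F`. -/
def Large (k : IntermediateField ℚ Ω) (N n : ℕ) (F : IntermediateField ℚ Ω) : Prop :=
  FiniteDimensional ℚ F ∧ k ≤ F ∧ N ≤ Module.finrank ℚ F ∧ AtMostOne k F ℝ ∧
    ∀ (p : ℕ) [Fact p.Prime], p ≤ n → AtMostOne k F ℚ_[p]

/-- a field that contains an `l`-th root `x` of an element of `k` -/
theorem atMostOne_root {k : IntermediateField ℚ Ω} {E : Type} [Field E] {l : ℕ} (hl : l ≠ 0)
    (hE : ∀ w : E, w ^ l = 1 → w = 1) {x y : Ω} (hx : x ^ l ∈ k) (hy : y ^ l ∈ k) (hx0 : x ≠ 0)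
    (hy0 : y ≠ 0) : AtMostOne k (fld k x y) E := by
  intro ρ ρ' h
  have key : ∀ u : fld k x y, (u : Ω) ≠ 0 → ((u : Ω)) ^ l ∈ k → ρ u = ρ' u := by
    intro u hu0 hu
    have h1 := h (u ^ l) hu
    rw [map_pow, map_pow] at h1
    have hu0' : u ≠ 0 := fun h => hu0 (by rw [h]; rfl)
    have h2 : ρ' u ≠ 0 := (map_ne_zero ρ').2 hu0'
    have h3 : (ρ u / ρ' u) ^ l = 1 := by rw [div_pow, h1, div_self (pow_ne_zero l h2)]
    have h4 := hE _ h3
    rwa [div_eq_one_iff_eq h2] at h4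
  exact hom_ext h (key ⟨x, fst_mem k x y⟩ hx0 hx) (key ⟨y, snd_mem k x y⟩ hy0 hy)

/-- a field that contains a primitive `l`-th root of unity has no embedding -/
theorem atMostOne_zeta {k F : IntermediateField ℚ Ω} {E : Type} [Field E] {l : ℕ}
    (hE : ∀ w : E, w ^ l = 1 → w = 1) {z : Ω} (hzl : z ^ l = 1) (hz1 : z ≠ 1) (hz : z ∈ F) :
    AtMostOne k F E := by
  intro ρ _ _
  exfalso
  have h1 : (ρ ⟨z, hz⟩) ^ l = 1 := by
    rw [← map_pow]
    have : (⟨z, hz⟩ : F) ^ l = 1 := Subtype.ext hzl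
    rw [this, map_one]
  have h2 := hE _ h1
  rw [← map_one ρ] at h2
  exact hz1 (congrArg Subtype.val (ρ.injective h2))

theorem finrank_of_root {F : IntermediateField ℚ Ω} [FiniteDimensional ℚ F] {l : ℕ}
    (hl : l.Prime) {a b : ℕ} (ha : a < l) (hb : b < l) (hab : a ≠ 0 ∨ b ≠ 0) {x : Ω}
    (hx : x ^ l = 2 ^ a * 3 ^ b) (hF : x ∈ F) : l ≤ Module.finrank ℚ F := by
  have hirr : Irreducible (X ^ l - C (2 ^ a * 3 ^ b : ℚ)) := by
    refine X_pow_sub_C_irreducible_of_prime hl fun y => ?_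
    refine not_pow hl ?_ ha hb hab y
    rw [Module.finrank_self]
    exact hl.one_lt
  have hmin : minpoly ℚ (⟨x, hF⟩ : F) = X ^ l - C (2 ^ a * 3 ^ b : ℚ) := by
    symm
    refine minpoly.eq_of_irreducible_of_monic hirr ?_ (monic_X_pow_sub_C _ hl.ne_zero)
    apply Subtype.ext
    have h1 : (algebraMap F Ω) (aeval (⟨x, hF⟩ : F) (X ^ l - C (2 ^ a * 3 ^ b : ℚ))) = 0 := by
      rw [← aeval_algebraMap_apply, map_sub, map_pow, aeval_X, aeval_C]
      change x ^ l - _ = 0
      rw [hx, sub_eq_zero, map_mul, map_pow, map_pow, map_ofNat, map_ofNat]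
    exact h1
  have h2 := minpoly.natDegree_le (A := ℚ) (⟨x, hF⟩ : F)
  rwa [hmin, natDegree_X_pow_sub_C] at h2

theorem finrank_of_zeta {F : IntermediateField ℚ Ω} [FiniteDimensional ℚ F] {l : ℕ}
    (hl : l.Prime) {z : Ω} (hz : IsPrimitiveRoot z l) (hF : z ∈ F) :
    l - 1 ≤ Module.finrank ℚ F := by
  have hc0 : CharZero F := charZero_of_injective_algebraMap (algebraMap ℚ F).injective
  have h1 : IsPrimitiveRoot (⟨z, hF⟩ : F) l :=
    IsPrimitiveRoot.of_map_of_injective (f := algebraMap F Ω) hz (algebraMap F Ω).injective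
  have h2 := minpoly.natDegree_le (A := ℚ) (⟨z, hF⟩ : F)
  have h3 : cyclotomic l ℚ = minpoly ℚ (⟨z, hF⟩ : F) :=
    minpoly.eq_of_irreducible_of_monic (cyclotomic.irreducible_rat hl.pos) (by
      have h4 := h1.isRoot_cyclotomic hl.pos
      rw [← map_cyclotomic l (algebraMap ℚ F), IsRoot.def, eval_map_algebraMap] at h4
      exact h4) (cyclotomic.monic l ℚ)
  rw [← h3, natDegree_cyclotomic, Nat.totient_prime hl] at h2
  exact h2

theorem finite_fld [IsAlgClosure ℚ Ω] (k : IntermediateField ℚ Ω) [FiniteDimensional ℚ k]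
    (x y : Ω) : FiniteDimensional ℚ (fld k x y) := by
  have : Algebra.IsAlgebraic ℚ Ω := IsAlgClosure.isAlgebraic
  have h1 : FiniteDimensional ℚ ℚ⟮x⟯ :=
    adjoin.finiteDimensional (Algebra.IsAlgebraic.isAlgebraic x).isIntegral
  have h2 : FiniteDimensional ℚ ℚ⟮y⟯ :=
    adjoin.finiteDimensional (Algebra.IsAlgebraic.isAlgebraic y).isIntegral
  unfold fld
  infer_instance

/-- **Theorem.** The value at `k` of a function that respects the relations is a combination of
values at fields of large degree with few embeddings. -/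
theorem mem_closure [hΩ : IsAlgClosure ℚ Ω] (k : IntermediateField ℚ Ω) [FiniteDimensional ℚ k]
    {A : Type} [AddCommGroup A] {f : IntermediateField ℚ Ω → A} (hf : Respects k f) (N n : ℕ) :
    f k ∈ AddSubgroup.closure {a | ∃ F, Large k N n F ∧ f F = a} := by
  have : IsAlgClosed Ω := IsAlgClosure.isAlgClosed ℚ
  have hc0 : CharZero Ω := charZero_of_injective_algebraMap (algebraMap ℚ Ω).injective
  obtain ⟨l, hlb, hl⟩ := Nat.exists_infinite_primes (N + n + Module.finrank ℚ k + 3)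
  have hlf : Fact l.Prime := ⟨hl⟩
  have hd : Module.finrank ℚ k < l := by omega
  have hlne : NeZero (l : Ω) := ⟨Nat.cast_ne_zero.2 hl.ne_zero⟩
  obtain ⟨z, hz⟩ := HasEnoughRootsOfUnity.exists_primitiveRoot Ω l
  obtain ⟨α, hα⟩ := IsAlgClosed.exists_pow_nat_eq (2 : Ω) hl.pos
  obtain ⟨β, hβ⟩ := IsAlgClosed.exists_pow_nat_eq (3 : Ω) hl.pos
  obtain ⟨e, he⟩ := relation k hd hz hα hβ
  have h2 := two_ne k hd hz hα hβ
  have h3 := three_ne k hd hz hα hβ
  have hRr : ∀ w : ℝ, w ^ l = 1 → w = 1 := fun w hw => real_root hl (by omega) hw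
  have hRp : ∀ (p : ℕ) [Fact p.Prime], p ≤ n → ∀ w : ℚ_[p], w ^ l = 1 → w = 1 :=
    fun p _ hp w hw => padic_root hl (by omega) hw
  have hpow : ∀ a b : ℕ, (α ^ a * β ^ b) ^ l = 2 ^ a * 3 ^ b := fun a b => by
    rw [mul_pow, ← pow_mul, ← pow_mul, mul_comm a, mul_comm b, pow_mul, pow_mul, hα, hβ]
  have hmk : ∀ a b : ℕ, (2 : Ω) ^ a * 3 ^ b ∈ k := fun a b =>
    mul_mem (pow_mem (ofNat_mem k 2) a) (pow_mem (ofNat_mem k 3) b)
  have hne : ∀ a b : ℕ, α ^ a * β ^ b ≠ 0 := fun a b h => by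
    have h4 := hpow a b
    rw [h, zero_pow hl.ne_zero] at h4
    exact mul_ne_zero (pow_ne_zero a h2) (pow_ne_zero b h3) h4.symm
  have hα0 : α ≠ 0 := by
    have := hne 1 0
    simpa using this
  have hβ0 : β ≠ 0 := by
    have := hne 0 1
    simpa using this
  have hz1 : z ≠ 1 := hz.ne_one hl.one_lt
  -- the fields are good
  have g1 : ∀ a b : ℕ, a < l → b < l → (a ≠ 0 ∨ b ≠ 0) → Large k N n (fld k (α ^ a * β ^ b) 1) := by
    intro a b ha hb hab
    have hfin := finite_fld k (α ^ a * β ^ b) 1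
    refine ⟨hfin, le_fld _ _ _, ?_, ?_, ?_⟩
    · have := finrank_of_root hl ha hb hab (hpow a b) (fst_mem k _ 1)
      omega
    · exact atMostOne_root hl.ne_zero hRr (by rw [hpow]; exact hmk a b)
        (by rw [one_pow]; exact one_mem k) (hne a b) one_ne_zero
    · intro p _ hp
      exact atMostOne_root hl.ne_zero (hRp p hp) (by rw [hpow]; exact hmk a b)
        (by rw [one_pow]; exact one_mem k) (hne a b) one_ne_zero
  have g2 : Large k N n (fld k α β) := by
    have hfin := finite_fld k α β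
    refine ⟨hfin, le_fld _ _ _, ?_, ?_, ?_⟩
    · have := finrank_of_root (a := 1) (b := 0) hl hl.one_lt hl.pos (Or.inl one_ne_zero)
        (by rw [hα]; norm_num) (fst_mem k α β)
      omega
    · exact atMostOne_root hl.ne_zero hRr (by rw [hα]; exact ofNat_mem k 2)
        (by rw [hβ]; exact ofNat_mem k 3) hα0 hβ0
    · intro p _ hp
      exact atMostOne_root hl.ne_zero (hRp p hp) (by rw [hα]; exact ofNat_mem k 2)
        (by rw [hβ]; exact ofNat_mem k 3) hα0 hβ0
  have g3 : ∀ y : Ω, Large k N n (fld k z y) := by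
    intro y
    have hfin := finite_fld k z y
    refine ⟨hfin, le_fld _ _ _, ?_, ?_, ?_⟩
    · have := finrank_of_zeta hl hz (fst_mem k z y)
      omega
    · exact atMostOne_zeta hRr hz.pow_eq_one hz1 (fst_mem k z y)
    · intro p _ hp
      exact atMostOne_zeta (hRp p hp) hz.pow_eq_one hz1 (fst_mem k z y)
  have hm : ∀ F, Large k N n F → f F ∈ AddSubgroup.closure {a | ∃ F, Large k N n F ∧ f F = a} :=
    fun F hF => AddSubgroup.subset_closure ⟨F, hF, rfl⟩
  have hrel := hf (ZMod l ⊕ Fin 6)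
    (Sum.elim (fun _ => 1) ![1, -1, -(e : ℤ), -((l : ℤ) - 1), (e : ℤ), -1])
    (Sum.elim (fun t => fld k (α ^ 1 * β ^ t.val) 1)
      ![fld k (α ^ 0 * β ^ 1) 1, fld k α β, fld k z 1, fld k (α ^ 1 * β ^ 0) 1, fld k z α, k])
    (by
      rintro (t | i)
      · exact ⟨finite_fld _ _ _, le_fld _ _ _⟩
      · fin_cases i
        · exact ⟨finite_fld _ _ _, le_fld _ _ _⟩
        · exact ⟨finite_fld _ _ _, le_fld _ _ _⟩
        · exact ⟨finite_fld _ _ _, le_fld _ _ _⟩
        · exact ⟨finite_fld _ _ _, le_fld _ _ _⟩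
        · exact ⟨finite_fld _ _ _, le_fld _ _ _⟩
        · exact ⟨by assumption, le_rfl⟩)
    (by
      intro σ hσ
      have h4 := he σ hσ
      rw [Fintype.sum_sum_type, Fin.sum_univ_six]
      simp only [Sum.elim_inl, Sum.elim_inr, Matrix.cons_val, one_mul]
      linear_combination h4)
  rw [Fintype.sum_sum_type, Fin.sum_univ_six] at hrel
  simp only [Sum.elim_inl, Sum.elim_inr, Matrix.cons_val, one_smul, neg_smul] at hrel
  have hfk : f k = ∑ t : ZMod l, f (fld k (α ^ 1 * β ^ t.val) 1) + f (fld k (α ^ 0 * β ^ 1) 1) -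
      f (fld k α β) - (e : ℤ) • f (fld k z 1) - ((l : ℤ) - 1) • f (fld k (α ^ 1 * β ^ 0) 1) +
      (e : ℤ) • f (fld k z α) := by
    rw [← sub_eq_zero, ← neg_eq_zero, ← hrel]
    abel
  rw [hfk]
  refine add_mem (sub_mem (sub_mem (sub_mem (add_mem (sum_mem fun t _ => ?_) ?_) ?_)
    (zsmul_mem ?_ _)) (zsmul_mem ?_ _)) (zsmul_mem ?_ _)
  · exact hm _ (g1 1 t.val hl.one_lt (ZMod.val_lt t) (Or.inl one_ne_zero))
  · exact hm _ (g1 0 1 hl.pos hl.one_lt (Or.inr one_ne_zero))
  · exact hm _ g2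
  · exact hm _ (g3 1)
  · exact hm _ (g1 1 0 hl.one_lt hl.pos (Or.inl one_ne_zero))
  · exact hm _ (g3 α)

end Pool.Agent.Q317.LD
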