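import Pool.Agent.Q317.LD.Orb

/-!
# Kummer theory for `2` and `3`
-/

set_option autoImplicit false

namespace Pool.Agent.Q317.LD

open scoped Classical
open IntermediateField Polynomial Pool.Agent.Q317.ST Pool.Agent.Q317.ST.Perm

attribute [-instance] DivisionRing.toRatAlgebra

theorem val_two_three (a b : ℕ) : padicValRat 2 ((2 : ℚ) ^ a * 3 ^ b) = a ∧
    padicValRat 3 ((2 : ℚ) ^ a * 3 ^ b) = b := by
  have : Fact (Nat.Prime 2) := ⟨Nat.prime_two⟩
  have : Fact (Nat.Prime 3) := ⟨Nat.prime_three⟩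
  have h1 : padicValRat 2 (2 : ℚ) = 1 := by
    have := padicValRat.self (p := 2) (by norm_num)
    exact_mod_cast this
  have h2 : padicValRat 3 (3 : ℚ) = 1 := by
    have := padicValRat.self (p := 3) (by norm_num)
    exact_mod_cast this
  have h3 : padicValRat 2 (3 : ℚ) = 0 := by
    have h := padicValRat.of_nat (p := 2) (n := 3)
    rw [padicValNat.eq_zero_of_not_dvd (by norm_num)] at h
    exact_mod_cast h
  have h4 : padicValRat 3 (2 : ℚ) = 0 := by
    have h := padicValRat.of_nat (p := 3) (n := 2)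
    rw [padicValNat.eq_zero_of_not_dvd (by norm_num)] at h
    exact_mod_cast h
  constructor
  · rw [padicValRat.mul (pow_ne_zero _ (by norm_num)) (pow_ne_zero _ (by norm_num)),
      padicValRat.pow, padicValRat.pow, h1, h3]
    ring
  · rw [padicValRat.mul (pow_ne_zero _ (by norm_num)) (pow_ne_zero _ (by norm_num)),
      padicValRat.pow, padicValRat.pow, h2, h4]
    ring

/-- `2 ^ a * 3 ^ b` is not an `ℓ`-th power in a field of degree less than `ℓ` -/
theorem not_pow {K : Type} [Field K] [Algebra ℚ K] [FiniteDimensional ℚ K] {l : ℕ} (hl : l.Prime)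
    (hd : Module.finrank ℚ K < l) {a b : ℕ} (ha : a < l) (hb : b < l) (hab : a ≠ 0 ∨ b ≠ 0)
    (x : K) : x ^ l ≠ 2 ^ a * 3 ^ b := by
  intro hx
  have : Fact (Nat.Prime 2) := ⟨Nat.prime_two⟩
  have : Fact (Nat.Prime 3) := ⟨Nat.prime_three⟩
  have h1 : (Algebra.norm ℚ x) ^ l = ((2 : ℚ) ^ a * 3 ^ b) ^ Module.finrank ℚ K := by
    rw [← map_pow, hx, ← Algebra.norm_algebraMap (S := K)]
    congr 1
    rw [map_mul, map_pow, map_pow, map_ofNat, map_ofNat]
  have hd0 : 0 < Module.finrank ℚ K := Module.finrank_pos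
  have hnd : ¬ l ∣ Module.finrank ℚ K := Nat.not_dvd_of_pos_of_lt hd0 hd
  have h0 : ((2 : ℚ) ^ a * 3 ^ b) ≠ 0 := by positivity
  have hN : Algebra.norm ℚ x ≠ 0 := by
    intro h
    rw [h, zero_pow hl.ne_zero] at h1
    exact pow_ne_zero _ h0 h1.symm
  obtain ⟨v2, v3⟩ := val_two_three a b
  have key : ∀ (p c : ℕ) [Fact p.Prime], padicValRat p ((2 : ℚ) ^ a * 3 ^ b) = c → c < l →
      c = 0 := by
    intro p c _ hv hc
    have h2 := congrArg (padicValRat p) h1
    rw [padicValRat.pow, padicValRat.pow, hv] at h2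
    have h3 : (l : ℤ) ∣ (Module.finrank ℚ K : ℤ) * c := ⟨_, h2.symm⟩
    have h4 : l ∣ Module.finrank ℚ K * c := by exact_mod_cast h3
    rcases hl.dvd_mul.1 h4 with h | h
    · exact absurd h hnd
    · exact Nat.eq_zero_of_dvd_of_lt h hc
  rcases hab with h | h
  · exact h (key 2 a v2 ha)
  · exact h (key 3 b v3 hb)

variable {Ω : Type} [Field Ω] [Algebra ℚ Ω]

/-- powers with exponents modulo `ℓ` -/
noncomputable def ex {l : ℕ} (z : Ω) (i : ZMod l) : Ω := z ^ i.val

theorem pow_mod' {l : ℕ} {z : Ω} (hz : z ^ l = 1) {m n : ℕ} (h : (m : ZMod l) = n) :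
    z ^ m = z ^ n := by
  rw [pow_eq_pow_mod m hz, pow_eq_pow_mod n hz, (ZMod.natCast_eq_natCast_iff' m n l).1 h]

theorem ex_add {l : ℕ} [NeZero l] {z : Ω} (hz : z ^ l = 1) (i j : ZMod l) :
    ex z (i + j) = ex z i * ex z j := by
  unfold ex
  rw [← pow_add]
  apply pow_mod' hz
  push_cast
  rw [ZMod.natCast_zmod_val, ZMod.natCast_zmod_val, ZMod.natCast_zmod_val]

theorem ex_zero {l : ℕ} [NeZero l] (z : Ω) : ex z (0 : ZMod l) = 1 := by
  unfold ex
  rw [ZMod.val_zero, pow_zero]

/-- the quotient of two `ℓ`-th roots -/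
theorem exists_ex {l : ℕ} [NeZero l] {z : Ω} (hz : IsPrimitiveRoot z l) {x y c : Ω} (hc : c ≠ 0)
    (hx : x ^ l = c) (hy : y ^ l = c) : ∃ i : ZMod l, y = ex z i * x := by
  have hx0 : x ≠ 0 := by
    rintro rfl
    rw [zero_pow (NeZero.ne l)] at hx
    exact hc hx.symm
  have h1 : (y / x) ^ l = 1 := by rw [div_pow, hx, hy, div_self hc]
  obtain ⟨i, hi, h2⟩ := hz.eq_pow_of_pow_eq_one h1
  refine ⟨(i : ZMod l), ?_⟩
  unfold ex
  rw [ZMod.val_natCast_of_lt hi, h2, div_mul_cancel₀ _ hx0]

theorem kum [hΩ : IsAlgClosure ℚ Ω] (k : IntermediateField ℚ Ω) [FiniteDimensional ℚ k] {l : ℕ}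
    [hl : Fact l.Prime] (hd : Module.finrank ℚ k < l) {z α β : Ω} (hz : IsPrimitiveRoot z l)
    (hα : α ^ l = 2) (hβ : β ^ l = 3) (i j : ZMod l) :
    ∃ s ∈ GG k, s z = z ∧ s α = ex z i * α ∧ s β = ex z j * β := by
  have : IsAlgClosed Ω := IsAlgClosure.isAlgClosed ℚ
  have : Algebra.IsAlgebraic ℚ Ω := IsAlgClosure.isAlgebraic
  have hc0 : CharZero Ω := charZero_of_injective_algebraMap (algebraMap ℚ Ω).injective
  have hck : CharZero k := charZero_of_injective_algebraMap (algebraMap ℚ k).injective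
  have hz1 : z ^ l = 1 := hz.pow_eq_one
  have h2 : (2 : Ω) ≠ 0 := two_ne_zero
  have h3 : (3 : Ω) ≠ 0 := three_ne_zero
  have hα0 : α ≠ 0 := by
    rintro rfl
    rw [zero_pow hl.out.ne_zero] at hα
    exact h2 hα.symm
  have hβ0 : β ≠ 0 := by
    rintro rfl
    rw [zero_pow hl.out.ne_zero] at hβ
    exact h3 hβ.symm
  have hsz : ∀ (s : Ω ≃ₐ[ℚ] Ω) (i : ZMod l), s z = z → s (ex z i) = ex z i := fun s i h => by
    unfold ex
    rw [map_pow, h]
  let I : AddSubgroup (ZMod l × ZMod l) :=
    { carrier := {t | ∃ s ∈ GG k, s z = z ∧ s α = ex z t.1 * α ∧ s β = ex z t.2 * β}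
      zero_mem' := ⟨1, one_mem _, rfl, by rw [Prod.fst_zero, ex_zero, one_mul]; rfl,
        by rw [Prod.snd_zero, ex_zero, one_mul]; rfl⟩
      add_mem' := by
        rintro t t' ⟨s, hs, h1, h2, h3⟩ ⟨s', hs', h1', h2', h3'⟩
        refine ⟨s * s', mul_mem hs hs', ?_, ?_, ?_⟩
        · rw [AlgEquiv.mul_apply, h1', h1]
        · rw [AlgEquiv.mul_apply, h2', map_mul, hsz s _ h1, h2, Prod.fst_add, ex_add hz1]
          ring
        · rw [AlgEquiv.mul_apply, h3', map_mul, hsz s _ h1, h3, Prod.snd_add, ex_add hz1]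
          ring
      neg_mem' := by
        rintro t ⟨s, hs, h1, h2, h3⟩
        have h1' : s⁻¹ z = z := by
          apply s.injective
          change s (s.symm z) = s z
          rw [AlgEquiv.apply_symm_apply, h1]
        refine ⟨s⁻¹, inv_mem hs, h1', ?_, ?_⟩
        · apply s.injective
          change s (s.symm α) = _
          rw [AlgEquiv.apply_symm_apply, map_mul, hsz s _ h1, h2, ← mul_assoc, Prod.fst_neg,
            ← ex_add hz1, neg_add_cancel, ex_zero, one_mul]
        · apply s.injective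
          change s (s.symm β) = _
          rw [AlgEquiv.apply_symm_apply, map_mul, hsz s _ h1, h3, ← mul_assoc, Prod.snd_neg,
            ← ex_add hz1, neg_add_cancel, ex_zero, one_mul] }
  suffices hI : (i, j) ∈ I from hI
  have htop : AddSubgroup.toZModSubmodule l I = ⊤ := by
    by_contra hne
    obtain ⟨f, hf0, hf⟩ := Submodule.exists_le_ker_of_lt_top _ (lt_top_iff_ne_top.2 hne)
    let a : ZMod l := f (1, 0)
    let b : ZMod l := f (0, 1)
    have hfab : ∀ t : ZMod l × ZMod l, f t = t.1 * a + t.2 * b := by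
      intro t
      have h1 : t = t.1 • ((1, 0) : ZMod l × ZMod l) + t.2 • ((0, 1) : ZMod l × ZMod l) := by
        ext <;> simp
      conv_lhs => rw [h1, map_add, map_smul, map_smul]
      rfl
    have hab : a.val ≠ 0 ∨ b.val ≠ 0 := by
      by_contra hcon
      push Not at hcon
      apply hf0
      apply LinearMap.ext
      intro t
      rw [hfab, (ZMod.val_eq_zero a).1 hcon.1, (ZMod.val_eq_zero b).1 hcon.2]
      simp
    let γ : Ω := α ^ a.val * β ^ b.val
    have hγ : ∀ s ∈ GG k, s z = z → s γ = γ := by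
      intro s hs h1
      obtain ⟨i, hi⟩ := exists_ex hz (x := α) (y := s α) h2 hα (by
        rw [← map_pow, hα]
        exact map_ofNat s 2)
      obtain ⟨j, hj⟩ := exists_ex hz (x := β) (y := s β) h3 hβ (by
        rw [← map_pow, hβ]
        exact map_ofNat s 3)
      have h4 : (i, j) ∈ AddSubgroup.toZModSubmodule l I := ⟨s, hs, h1, hi, hj⟩
      have h5 := hf h4
      rw [LinearMap.mem_ker, hfab] at h5
      change s (α ^ a.val * β ^ b.val) = α ^ a.val * β ^ b.val
      rw [map_mul, map_pow, map_pow, hi, hj, mul_pow, mul_pow]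
      have h6 : ex z i ^ a.val * ex z j ^ b.val = 1 := by
        unfold ex
        rw [← pow_mul, ← pow_mul, ← pow_add, ← pow_zero z]
        apply pow_mod' hz1
        push_cast
        rw [ZMod.natCast_zmod_val, ZMod.natCast_zmod_val, ZMod.natCast_zmod_val,
          ZMod.natCast_zmod_val]
        exact h5
      calc ex z i ^ a.val * α ^ a.val * (ex z j ^ b.val * β ^ b.val) =
          (ex z i ^ a.val * ex z j ^ b.val) * (α ^ a.val * β ^ b.val) := by ring
        _ = _ := by rw [h6, one_mul]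
    have hγl : γ ^ l = 2 ^ a.val * 3 ^ b.val := by
      change (α ^ a.val * β ^ b.val) ^ l = _
      rw [mul_pow, ← pow_mul, ← pow_mul, mul_comm a.val, mul_comm b.val, pow_mul, pow_mul, hα, hβ]
    have hmem : γ ∈ k⟮z⟯ := by
      rw [← InfiniteGalois.fixedField_fixingSubgroup k⟮z⟯, IntermediateField.mem_fixedField_iff]
      intro g hg
      have h1 : g z = z := (IntermediateField.mem_fixingSubgroup_iff _ _).1 hg z
        (mem_adjoin_simple_self k z)
      refine hγ (g.restrictScalars ℚ) ?_ h1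
      rw [IntermediateField.mem_fixingSubgroup_iff]
      intro x hx
      exact g.commutes ⟨x, hx⟩
    have hirr : Irreducible (X ^ l - C (2 ^ a.val * 3 ^ b.val : k)) :=
      X_pow_sub_C_irreducible_of_prime hl.out fun x =>
        not_pow hl.out hd (ZMod.val_lt a) (ZMod.val_lt b) hab x
    have hmin : minpoly k γ = X ^ l - C (2 ^ a.val * 3 ^ b.val : k) := by
      symm
      refine minpoly.eq_of_irreducible_of_monic hirr ?_ (monic_X_pow_sub_C _ hl.out.ne_zero)
      rw [map_sub, map_pow, aeval_X, aeval_C, hγl, sub_eq_zero, map_mul, map_pow, map_pow,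
        map_ofNat, map_ofNat]
    have hdeg1 : Module.finrank k k⟮γ⟯ = l := by
      rw [adjoin.finrank (Algebra.IsAlgebraic.isAlgebraic γ).isIntegral, hmin,
        natDegree_X_pow_sub_C]
    have hzint : IsIntegral k z := (Algebra.IsAlgebraic.isAlgebraic z).isIntegral
    have hdeg2 : Module.finrank k k⟮z⟯ ≤ l - 1 := by
      rw [adjoin.finrank hzint, ← Nat.totient_prime hl.out, ← natDegree_cyclotomic l k]
      refine natDegree_le_of_dvd (minpoly.dvd k z ?_) (cyclotomic_ne_zero l k)
      have := hz.isRoot_cyclotomic hl.out.pos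
      rw [← map_cyclotomic l (algebraMap k Ω), IsRoot.def, eval_map_algebraMap] at this
      exact this
    have hle : k⟮γ⟯ ≤ k⟮z⟯ := adjoin_simple_le_iff.2 hmem
    have hfz : FiniteDimensional k k⟮z⟯ := adjoin.finiteDimensional hzint
    have h4 : Module.finrank k k⟮γ⟯ ≤ Module.finrank k k⟮z⟯ :=
      LinearMap.finrank_le_finrank_of_injective (f := (inclusion hle).toLinearMap)
        (inclusion_injective hle)
    have := hl.out.pos
    omega
  have h5 : (i, j) ∈ AddSubgroup.toZModSubmodule l I := by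
    rw [htop]
    trivial
  exact h5

end Pool.Agent.Q317.LD
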