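import Pool.Agent.Q317.LD.Count

/-!
# The relation
-/

set_option autoImplicit false

namespace Pool.Agent.Q317.LD

open scoped Classical
open IntermediateField Polynomial Pool.Agent.Q317.ST Pool.Agent.Q317.ST.Perm

attribute [-instance] DivisionRing.toRatAlgebra

variable {Ω : Type} [Field Ω] [Algebra ℚ Ω]

theorem card_pair (σ : Ω ≃ₐ[ℚ] Ω) (P Q : Set Ω) :
    Nat.card {p : Ω × Ω // (p.1 ∈ P ∧ p.2 ∈ Q) ∧ σ p.1 = p.1 ∧ σ p.2 = p.2} =
      Nat.card {x : Ω // x ∈ P ∧ σ x = x} * Nat.card {y : Ω // y ∈ Q ∧ σ y = y} := by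
  rw [← Nat.card_prod]
  refine Nat.card_congr
    { toFun := fun p => (⟨p.1.1, p.2.1.1, p.2.2.1⟩, ⟨p.1.2, p.2.1.2, p.2.2.2⟩)
      invFun := fun q => ⟨(q.1.1, q.2.1), ⟨q.1.2.1, q.2.2.1⟩, q.1.2.2, q.2.2.2⟩
      left_inv := fun _ => rfl
      right_inv := fun _ => rfl }

theorem card_one (σ : Ω ≃ₐ[ℚ] Ω) : Nat.card {y : Ω // y ∈ ({1} : Set Ω) ∧ σ y = y} = 1 := by
  rw [Nat.card_eq_one_iff_unique]
  refine ⟨⟨?_⟩, ⟨⟨1, rfl, map_one σ⟩⟩⟩
  rintro ⟨y, hy, _⟩ ⟨y', hy', _⟩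
  exact Subtype.ext (hy.trans hy'.symm)

theorem fix_pair [IsAlgClosure ℚ Ω] {k : IntermediateField ℚ Ω} {x y : Ω} {σ : Ω ≃ₐ[ℚ] Ω}
    (hσ : σ ∈ GG k) {P Q : Set Ω} (h : ∀ p : Ω × Ω, p ∈ Orb k x y ↔ p.1 ∈ P ∧ p.2 ∈ Q) :
    fix k (fld k x y) σ =
      Nat.card {x : Ω // x ∈ P ∧ σ x = x} * Nat.card {y : Ω // y ∈ Q ∧ σ y = y} := by
  rw [fix_fld k x y σ hσ, ← card_pair]
  exact Nat.card_congr (Equiv.subtypeEquivRight fun p => by rw [h p])

section
variable [hΩ : IsAlgClosure ℚ Ω] (k : IntermediateField ℚ Ω) [FiniteDimensional ℚ k] {l : ℕ}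
    [hl : Fact l.Prime] (hd : Module.finrank ℚ k < l) {z α β : Ω} (hz : IsPrimitiveRoot z l)
    (hα : α ^ l = 2) (hβ : β ^ l = 3)

include hd hz hα hβ

theorem two_ne : (2 : Ω) ≠ 0 := by
  have hc0 : CharZero Ω := charZero_of_injective_algebraMap (algebraMap ℚ Ω).injective
  exact two_ne_zero

theorem three_ne : (3 : Ω) ≠ 0 := by
  have hc0 : CharZero Ω := charZero_of_injective_algebraMap (algebraMap ℚ Ω).injective
  exact three_ne_zero

theorem fix_ab {σ : Ω ≃ₐ[ℚ] Ω} (hσ : σ ∈ GG k) :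
    fix k (fld k α β) σ = nr σ l 2 * nr σ l 3 := by
  refine fix_pair hσ (P := {x | x ^ l = 2}) (Q := {x | x ^ l = 3}) ?_
  rintro ⟨p, q⟩
  constructor
  · rintro ⟨s, hs, h⟩
    rw [Prod.mk.injEq] at h
    obtain ⟨rfl, rfl⟩ := h
    exact ⟨by rw [Set.mem_setOf_eq, ← map_pow, hα, map_ofNat],
      by rw [Set.mem_setOf_eq, ← map_pow, hβ, map_ofNat]⟩
  · rintro ⟨h1, h2⟩
    obtain ⟨i, hi⟩ := exists_ex hz (two_ne k hd hz hα hβ) hα h1
    obtain ⟨j, hj⟩ := exists_ex hz (three_ne k hd hz hα hβ) hβ h2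
    obtain ⟨s, hs, _, h3, h4⟩ := kum k hd hz hα hβ i j
    exact ⟨s, hs, by rw [h3, h4, ← hi, ← hj]⟩

/-- a root of `2 * 3 ^ t` or of `3` alone -/
theorem fix_c {σ : Ω ≃ₐ[ℚ] Ω} (hσ : σ ∈ GG k) (a b : ℕ)
    (hab : ∀ m : ZMod l, ∃ i j : ZMod l, a * i + b * j = m) :
    fix k (fld k (α ^ a * β ^ b) 1) σ = nr σ l (2 ^ a * 3 ^ b) := by
  have hz1 := hz.pow_eq_one
  have h2 := two_ne k hd hz hα hβ
  have h3 := three_ne k hd hz hα hβ
  have hpow : (α ^ a * β ^ b) ^ l = 2 ^ a * 3 ^ b := by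
    rw [mul_pow, ← pow_mul, ← pow_mul, mul_comm a, mul_comm b, pow_mul, pow_mul, hα, hβ]
  rw [fix_pair hσ (P := {x | x ^ l = 2 ^ a * 3 ^ b}) (Q := {1}), card_one, mul_one]
  · rfl
  rintro ⟨p, q⟩
  constructor
  · rintro ⟨s, hs, h⟩
    rw [Prod.mk.injEq] at h
    obtain ⟨rfl, rfl⟩ := h
    refine ⟨?_, map_one s⟩
    rw [Set.mem_setOf_eq, ← map_pow, hpow, map_mul, map_pow, map_pow, map_ofNat, map_ofNat]
  · rintro ⟨h4, h5⟩
    have h5' : q = 1 := h5
    obtain ⟨m, hm⟩ := exists_ex hz (mul_ne_zero (pow_ne_zero a h2) (pow_ne_zero b h3)) hpow h4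
    obtain ⟨i, j, hij⟩ := hab m
    obtain ⟨s, hs, _, h6, h7⟩ := kum k hd hz hα hβ i j
    refine ⟨s, hs, ?_⟩
    rw [map_one, h5', map_mul, map_pow, map_pow, h6, h7, mul_pow, mul_pow]
    have h8 : ex z i ^ a * ex z j ^ b = ex z m := by
      unfold ex
      rw [← pow_mul, ← pow_mul, ← pow_add]
      apply pow_mod' hz1
      push_cast
      rw [ZMod.natCast_zmod_val, ZMod.natCast_zmod_val, ZMod.natCast_zmod_val, ← hij]
      ring
    have hm' : p = ex z m * (α ^ a * β ^ b) := hm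
    rw [hm', ← h8]
    congr 1
    ring

theorem fix_z {σ : Ω ≃ₐ[ℚ] Ω} (hσ : σ ∈ GG k) : fix k (fld k z 1) σ = nz k σ z := by
  rw [fix_pair hσ (P := Oz k z) (Q := {1}), card_one, mul_one]
  · rfl
  rintro ⟨p, q⟩
  constructor
  · rintro ⟨s, hs, h⟩
    rw [Prod.mk.injEq] at h
    obtain ⟨rfl, rfl⟩ := h
    exact ⟨⟨s, hs, rfl⟩, map_one s⟩
  · rintro ⟨⟨s, hs, h4⟩, h5⟩
    have h5' : q = 1 := h5
    have h4' : p = s z := h4
    exact ⟨s, hs, by rw [map_one, h5', h4']⟩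

theorem fix_za {σ : Ω ≃ₐ[ℚ] Ω} (hσ : σ ∈ GG k) :
    fix k (fld k z α) σ = nz k σ z * nr σ l 2 := by
  have hz1 := hz.pow_eq_one
  refine fix_pair hσ (P := Oz k z) (Q := {x | x ^ l = 2}) ?_
  rintro ⟨p, q⟩
  constructor
  · rintro ⟨s, hs, h⟩
    rw [Prod.mk.injEq] at h
    obtain ⟨rfl, rfl⟩ := h
    exact ⟨⟨s, hs, rfl⟩, by rw [Set.mem_setOf_eq, ← map_pow, hα, map_ofNat]⟩
  · rintro ⟨⟨s, hs, h4⟩, h5⟩
    have h6 : (s α) ^ l = 2 := by rw [← map_pow, hα, map_ofNat]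
    obtain ⟨i, hi⟩ := exists_ex hz (two_ne k hd hz hα hβ) h6 h5
    obtain ⟨j, hj⟩ := exists_ex hz (two_ne k hd hz hα hβ) hα h6
    obtain ⟨u, hu, h7, h8, _⟩ := kum k hd hz hα hβ i 0
    have h9 : ∀ i : ZMod l, u (ex z i) = ex z i := fun i => by
      unfold ex
      rw [map_pow, h7]
    obtain ⟨m, hm⟩ := exists_m hz s
    refine ⟨u * s, mul_mem hu hs, ?_⟩
    rw [AlgEquiv.mul_apply, AlgEquiv.mul_apply, hj, map_mul, h9, h8, hm, h9]
    have hp : p = ex z m := by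
      have : p = s z := h4
      rw [this, hm]
    have hq : q = ex z i * s α := hi
    rw [hp, hq, hj]
    congr 1
    ring

/-- **The relation.** -/
theorem relation : ∃ e : ℕ, ∀ σ ∈ GG k,
    (∑ t : ZMod l, (fix k (fld k (α ^ 1 * β ^ t.val) 1) σ : ℤ)) +
      fix k (fld k (α ^ 0 * β ^ 1) 1) σ - fix k (fld k α β) σ - e * fix k (fld k z 1) σ
      - (l - 1) * fix k (fld k (α ^ 1 * β ^ 0) 1) σ + e * fix k (fld k z α) σ - fix k k σ = 0 := by
  obtain ⟨e, he⟩ := card_Oz (k := k) hz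
  refine ⟨e, fun σ hσ => ?_⟩
  have hz1 := hz.pow_eq_one
  have h2 := two_ne k hd hz hα hβ
  have h3 := three_ne k hd hz hα hβ
  have hσ2 : σ 2 = 2 := map_ofNat σ 2
  have hσ3 : σ 3 = 3 := map_ofNat σ 3
  have hc : ∀ t : ZMod l, fix k (fld k (α ^ 1 * β ^ t.val) 1) σ = nr σ l (2 ^ 1 * 3 ^ t.val) :=
    fun t => fix_c k hd hz hα hβ hσ 1 t.val fun m => ⟨m, 0, by push_cast; ring⟩
  rw [Finset.sum_congr rfl fun t _ => by rw [hc t],
    fix_c k hd hz hα hβ hσ 0 1 fun m => ⟨0, m, by push_cast; ring⟩,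
    fix_c k hd hz hα hβ hσ 1 0 fun m => ⟨m, 0, by push_cast; ring⟩,
    fix_ab k hd hz hα hβ hσ, fix_z k hd hz hα hβ hσ, fix_za k hd hz hα hβ hσ]
  have hk : fix k k σ = 1 := by
    have h4 := fix_fld k 1 1 σ hσ
    rw [fld_self] at h4
    rw [h4, Nat.card_eq_one_iff_unique]
    refine ⟨⟨?_⟩, ⟨⟨(1, 1), ⟨1, one_mem _, rfl⟩, map_one σ, map_one σ⟩⟩⟩
    rintro ⟨p, ⟨s, _, hp⟩, _⟩ ⟨p', ⟨s', _, hp'⟩, _⟩
    apply Subtype.ext
    change p = p'
    rw [hp, hp', map_one, map_one]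
  rw [hk]
  have hpow : ∀ a b : ℕ, (α ^ a * β ^ b) ^ l = 2 ^ a * 3 ^ b := fun a b => by
    rw [mul_pow, ← pow_mul, ← pow_mul, mul_comm a, mul_comm b, pow_mul, pow_mul, hα, hβ]
  have hne : ∀ a b : ℕ, (2 : Ω) ^ a * 3 ^ b ≠ 0 := fun a b =>
    mul_ne_zero (pow_ne_zero a h2) (pow_ne_zero b h3)
  have hσc : ∀ a b : ℕ, σ ((2 : Ω) ^ a * 3 ^ b) = 2 ^ a * 3 ^ b := fun a b => by
    rw [map_mul, map_pow, map_pow, hσ2, hσ3]
  have h20 : (2 : Ω) = 2 ^ 1 * 3 ^ 0 := by norm_num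
  have h30 : (3 : Ω) = 2 ^ 0 * 3 ^ 1 := by norm_num
  have he' : (e : ℤ) * Nat.card (Oz k z) = l - 1 := by
    have := hl.out.pos
    have h5 : ((e * Nat.card (Oz k z) : ℕ) : ℤ) = ((l - 1 : ℕ) : ℤ) := by rw [he]
    push_cast at h5
    rw [h5]
    omega
  by_cases hσz : σ z = z
  · rw [nz_fixed hz hσz]
    obtain ⟨u, hu⟩ := exists_ex hz h2 hα (y := σ α) (by rw [← map_pow, hα, hσ2])
    obtain ⟨v, hv⟩ := exists_ex hz h3 hβ (y := σ β) (by rw [← map_pow, hβ, hσ3])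
    have hact : ∀ a b : ℕ, σ (α ^ a * β ^ b) =
        ex z ((a : ZMod l) * u + (b : ZMod l) * v) * (α ^ a * β ^ b) := by
      intro a b
      rw [map_mul, map_pow, map_pow, hu, hv, mul_pow, mul_pow]
      have h8 : ex z u ^ a * ex z v ^ b = ex z ((a : ZMod l) * u + (b : ZMod l) * v) := by
        unfold ex
        rw [← pow_mul, ← pow_mul, ← pow_add]
        apply pow_mod' hz1
        push_cast
        rw [ZMod.natCast_zmod_val, ZMod.natCast_zmod_val, ZMod.natCast_zmod_val]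
        ring
      rw [← h8]
      ring
    have hα0 : ∀ a b : ℕ, α ^ a * β ^ b ≠ 0 := fun a b h => by
      have := hpow a b
      rw [h, zero_pow hl.out.ne_zero] at this
      exact hne a b this.symm
    have hnr : ∀ a b : ℕ, nr σ l (2 ^ a * 3 ^ b) = if (a : ZMod l) * u + b * v = 0 then l else 0 := by
      intro a b
      by_cases h : (a : ZMod l) * u + b * v = 0
      · rw [if_pos h]
        refine nr_fixed hz hσz (hne a b) (hpow a b) ?_
        rw [hact, h, ex_zero, one_mul]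
      · rw [if_neg h]
        refine nr_zero hz hσz (hne a b) (hpow a b) ?_
        intro h9
        rw [hact] at h9
        have h10 : ex z ((a : ZMod l) * u + (b : ZMod l) * v) = 1 :=
          mul_right_cancel₀ (hα0 a b) (h9.trans (one_mul _).symm)
        rw [← ex_zero (l := l) z] at h10
        exact h (ex_inj hz h10)
    have hn2 : nr σ l 2 = if u = 0 then l else 0 := by
      have := hnr 1 0
      rw [← h20] at this
      rw [this]
      simp
    have hn3 : nr σ l 3 = if v = 0 then l else 0 := by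
      have := hnr 0 1
      rw [← h30] at this
      rw [this]
      simp
    rw [← h20, ← h30, hn2, hn3]
    simp only [hnr]
    have hsum : ∑ t : ZMod l, ((if ((1 : ℕ) : ZMod l) * u + (t.val : ZMod l) * v = 0 then l else 0 : ℕ) : ℤ)
        = if v = 0 then (if u = 0 then (l : ℤ) * l else 0) else l := by
      simp only [ZMod.natCast_zmod_val, Nat.cast_one, one_mul]
      by_cases hv0 : v = 0
      · rw [if_pos hv0]
        simp only [hv0, mul_zero, add_zero]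
        by_cases hu0 : u = 0
        · simp [hu0, ZMod.card]
        · simp [hu0]
      · rw [if_neg hv0, Finset.sum_eq_single (-u / v)]
        · rw [if_pos]
          field_simp
          ring
        · intro t _ ht
          rw [if_neg]
          · rfl
          intro h
          apply ht
          rw [eq_div_iff hv0]
          linear_combination h
        · intro h
          exact absurd (Finset.mem_univ _) h
    rw [hsum]
    by_cases hv0 : v = 0
    · by_cases hu0 : u = 0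
      · simp only [hv0, hu0, if_true]
        push_cast
        linear_combination (-1 + (l : ℤ)) * he'
      · simp only [hv0, hu0, if_true, if_false]
        push_cast
        linear_combination (-1 : ℤ) * he'
    · by_cases hu0 : u = 0
      · simp only [hv0, hu0, if_true, if_false]
        push_cast
        linear_combination (-1 + (l : ℤ)) * he'
      · simp only [hv0, hu0, if_false]
        push_cast
        linear_combination (-1 : ℤ) * he'
  · rw [nz_zero hz hσz]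
    have hnr : ∀ a b : ℕ, nr σ l (2 ^ a * 3 ^ b) = 1 := fun a b =>
      nr_one hz hσz (hne a b) (hσc a b) (hpow a b)
    rw [← h20, ← h30]
    have hn2 : nr σ l 2 = 1 := by
      have := hnr 1 0
      rwa [← h20] at this
    have hn3 : nr σ l 3 = 1 := by
      have := hnr 0 1
      rwa [← h30] at this
    rw [hn2, hn3]
    simp only [hnr]
    rw [Finset.sum_const, Finset.card_univ, ZMod.card]
    push_cast
    simp

end

end Pool.Agent.Q317.LD
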