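import Pool.Agent.Q317.ST.Perm3

/-!
# Fixed embeddings and orbits of pairs
-/

set_option autoImplicit false

namespace Pool.Agent.Q317.LD

open scoped Classical
open IntermediateField Polynomial Pool.Agent.Q317.ST Pool.Agent.Q317.ST.Perm

attribute [-instance] DivisionRing.toRatAlgebra

variable {Ω : Type} [Field Ω] [Algebra ℚ Ω]

/-- the field `k(x, y)` -/
def fld (k : IntermediateField ℚ Ω) (x y : Ω) : IntermediateField ℚ Ω := k ⊔ ℚ⟮x⟯ ⊔ ℚ⟮y⟯

theorem le_fld (k : IntermediateField ℚ Ω) (x y : Ω) : k ≤ fld k x y :=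
  le_sup_left.trans le_sup_left

theorem fst_mem (k : IntermediateField ℚ Ω) (x y : Ω) : x ∈ fld k x y :=
  (le_sup_right.trans le_sup_left : ℚ⟮x⟯ ≤ fld k x y) (mem_adjoin_simple_self ℚ x)

theorem snd_mem (k : IntermediateField ℚ Ω) (x y : Ω) : y ∈ fld k x y :=
  (le_sup_right : ℚ⟮y⟯ ≤ fld k x y) (mem_adjoin_simple_self ℚ y)

/-- two homomorphisms that agree on `k`, `x` and `y` agree on `k(x, y)` -/
theorem hom_ext {k : IntermediateField ℚ Ω} {x y : Ω} {E : Type} [Field E]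
    {ρ ρ' : fld k x y →+* E}
    (hk : ∀ (z : fld k x y), (z : Ω) ∈ k → ρ z = ρ' z)
    (hx : ρ ⟨x, fst_mem k x y⟩ = ρ' ⟨x, fst_mem k x y⟩)
    (hy : ρ ⟨y, snd_mem k x y⟩ = ρ' ⟨y, snd_mem k x y⟩) : ρ = ρ' := by
  let L : IntermediateField ℚ Ω :=
    { carrier := {z | ∀ hz : z ∈ fld k x y, ρ ⟨z, hz⟩ = ρ' ⟨z, hz⟩} ∩ fld k x y
      mul_mem' := by
        rintro a b ⟨h1, ha⟩ ⟨h2, hb⟩
        refine ⟨fun hz => ?_, mul_mem ha hb⟩
        have e : (⟨a * b, hz⟩ : fld k x y) = ⟨a, ha⟩ * ⟨b, hb⟩ := rfl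
        rw [e, map_mul, map_mul, h1 ha, h2 hb]
      add_mem' := by
        rintro a b ⟨h1, ha⟩ ⟨h2, hb⟩
        refine ⟨fun hz => ?_, add_mem ha hb⟩
        have e : (⟨a + b, hz⟩ : fld k x y) = ⟨a, ha⟩ + ⟨b, hb⟩ := rfl
        rw [e, map_add, map_add, h1 ha, h2 hb]
      algebraMap_mem' := by
        intro q
        refine ⟨fun hz => ?_, (fld k x y).algebraMap_mem q⟩
        exact hk _ (k.algebraMap_mem q)
      inv_mem' := by
        rintro a ⟨h1, ha⟩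
        refine ⟨fun hz => ?_, inv_mem ha⟩
        have e : (⟨a⁻¹, hz⟩ : fld k x y) = (⟨a, ha⟩ : fld k x y)⁻¹ := rfl
        rw [e, map_inv₀, map_inv₀, h1 ha] }
  have hL : fld k x y ≤ L := by
    refine sup_le (sup_le ?_ ?_) ?_
    · intro z hz
      exact ⟨fun hz' => hk ⟨z, hz'⟩ hz, le_fld k x y hz⟩
    · rw [adjoin_simple_le_iff]
      exact ⟨fun _ => hx, fst_mem k x y⟩
    · rw [adjoin_simple_le_iff]
      exact ⟨fun _ => hy, snd_mem k x y⟩
  apply RingHom.ext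
  intro z
  exact (hL z.2).1 z.2

/-- the orbit of a pair -/
def Orb (k : IntermediateField ℚ Ω) (x y : Ω) : Set (Ω × Ω) :=
  {p | ∃ s ∈ GG k, p = (s x, s y)}

theorem fix_fld [IsAlgClosure ℚ Ω] (k : IntermediateField ℚ Ω) (x y : Ω) (σ : Ω ≃ₐ[ℚ] Ω)
    (hσk : σ ∈ GG k) :
    fix k (fld k x y) σ =
      Nat.card {p : Ω × Ω // p ∈ Orb k x y ∧ σ p.1 = p.1 ∧ σ p.2 = p.2} := by
  unfold fix
  have hlift : ∀ τ : fld k x y →ₐ[ℚ] Ω, (∀ z : fld k x y, (z : Ω) ∈ k → τ z = z) →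
      ∃ s ∈ GG k, ∀ z : fld k x y, s z = τ z := by
    intro τ hτ
    obtain ⟨s, hs⟩ := exists_lift τ
    refine ⟨s, ?_, hs⟩
    rw [IntermediateField.mem_fixingSubgroup_iff]
    intro z hz
    have h1 := hs ⟨z, le_fld k x y hz⟩
    rw [hτ ⟨z, le_fld k x y hz⟩ hz] at h1
    exact h1
  refine Nat.card_congr (Equiv.ofBijective (fun τ => ⟨(τ.1 ⟨x, fst_mem k x y⟩,
    τ.1 ⟨y, snd_mem k x y⟩), ?_, τ.2.2 _, τ.2.2 _⟩) ⟨?_, ?_⟩)
  · obtain ⟨s, hs, h⟩ := hlift τ.1 τ.2.1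
    exact ⟨s, hs, by rw [← h, ← h]⟩
  · intro τ τ' h
    have h1 := congrArg (fun t : {p : Ω × Ω // p ∈ Orb k x y ∧ σ p.1 = p.1 ∧ σ p.2 = p.2} =>
      t.1) h
    have h2 := congrArg Prod.fst h1
    have h3 := congrArg Prod.snd h1
    apply Subtype.ext
    have h4 : (τ.1 : fld k x y →+* Ω) = (τ'.1 : fld k x y →+* Ω) := by
      refine hom_ext ?_ h2 h3
      intro z hz
      exact (τ.2.1 z hz).trans (τ'.2.1 z hz).symm
    apply AlgHom.ext
    intro z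
    exact congrArg (fun t : fld k x y →+* Ω => t z) h4
  · rintro ⟨p, ⟨s, hs, hp⟩, h1, h2⟩
    have hsk := (IntermediateField.mem_fixingSubgroup_iff _ _).1 hs
    let τ : fld k x y →ₐ[ℚ] Ω := (s : Ω →ₐ[ℚ] Ω).comp (fld k x y).val
    have hτ : ∀ z : fld k x y, τ z = s z := fun _ => rfl
    have hσk' := (IntermediateField.mem_fixingSubgroup_iff _ _).1 hσk
    have hσ : ∀ z, σ (τ z) = τ z := by
      have h4 : ((σ : Ω ≃ₐ[ℚ] Ω) : Ω →+* Ω).comp (τ : fld k x y →+* Ω) =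
          (τ : fld k x y →+* Ω) := by
        refine hom_ext ?_ ?_ ?_
        · intro z hz
          change σ (s z) = s z
          rw [hsk z hz, hσk' z hz]
        · change σ (s x) = s x
          rw [hp] at h1
          exact h1
        · change σ (s y) = s y
          rw [hp] at h2
          exact h2
      intro z
      exact congrArg (fun t : fld k x y →+* Ω => t z) h4
    refine ⟨⟨τ, fun z hz => hsk z hz, hσ⟩, ?_⟩
    apply Subtype.ext
    exact hp.symm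

/-- the field `k` itself -/
theorem fld_self (k : IntermediateField ℚ Ω) : fld k 1 1 = k := by
  unfold fld
  have h1 : ℚ⟮(1 : Ω)⟯ ≤ k := adjoin_simple_le_iff.2 k.one_mem
  rw [sup_eq_left.2 h1, sup_eq_left.2 h1]

end Pool.Agent.Q317.LD
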